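import Pool.Agent.Y30.TT.Per

/-!
# MP_ecbb26_gt: the cup-length inequality fails in every codimension and in almost all dimensions

The inequality `curv ≥ c l² / (m k)` is refuted for every `c > 0` and every `k`, for all large `l`
and all `m` with `(1 + δ) l ≤ m` and `m k ≤ c' l^(3/2)`. The manifolds are `T^n × S^q`, immersed as
boundaries of tubes around products of tori of codimension one.
-/

set_option autoImplicit false

open scoped Manifold ContDiff ENNReal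

namespace Pool.Agent.Results.MP_ecbb26_gt.AllDimensions

open Pool.Agent.W556

/-- There are a closed `m`-manifold of cup-length at least `l` over `ℝ` and a smooth immersion of it
in the closed unit ball of `ℝ^(m + k)` of curvature at most `κ`. -/
def CurvatureAtMost (m k l : ℕ) (κ : ℝ) : Prop :=
  ∃ (V X : Type) (_ : NormedAddCommGroup V) (_ : NormedSpace ℝ V) (_ : TopologicalSpace X)
    (_ : ChartedSpace V X),
    Module.finrank ℝ V = m ∧ IsManifold 𝓘(ℝ, V) ∞ X ∧ CompactSpace X ∧ T2Space X ∧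
      CupLengthAtLeast ℝ X l ∧
      ∃ f : X → EuclideanSpace ℝ (Fin (m + k)), IsImmersion V f ∧ (∀ x, ‖f x‖ ≤ 1) ∧
        curvature V f ≤ ENNReal.ofReal κ

/-- The inequality `curv ≥ c l² / (m k)` fails for `m`, `k`, `l`: some closed `m`-manifold of
cup-length at least `l` over `ℝ` has a smooth immersion in the closed unit ball of `ℝ^(m + k)` of
curvature less than `c l² / (m k)`. -/
def InequalityFails (c : ℝ) (m k l : ℕ) : Prop :=
  ∃ (V X : Type) (_ : NormedAddCommGroup V) (_ : NormedSpace ℝ V) (_ : TopologicalSpace X)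
    (_ : ChartedSpace V X),
    Module.finrank ℝ V = m ∧ IsManifold 𝓘(ℝ, V) ∞ X ∧ CompactSpace X ∧ T2Space X ∧
      CupLengthAtLeast ℝ X l ∧
      ∃ f : X → EuclideanSpace ℝ (Fin (m + k)), IsImmersion V f ∧ (∀ x, ‖f x‖ ≤ 1) ∧
        curvature V f < ENNReal.ofReal (c * l ^ 2 / (m * k))

theorem fails_of {c : ℝ} {m k l : ℕ} {κ : ℝ} (h : CurvatureAtMost m k l κ) (h0 : 0 ≤ κ)
    (hκ : κ < c * l ^ 2 / (m * k)) : InequalityFails c m k l := by
  obtain ⟨V, X, i1, i2, i3, i4, h1, h2, h3, h4, h5, f, h6, h7, h8⟩ := h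
  exact ⟨V, X, i1, i2, i3, i4, h1, h2, h3, h4, h5, f, h6, h7,
    lt_of_le_of_lt h8 ((ENNReal.ofReal_lt_ofReal_iff_of_nonneg h0).2 hκ)⟩

theorem main (m k l : ℕ) (hl : 1 ≤ l) (hm : 2 * l ≤ m + 1) (hk : 1 ≤ k) :
    CurvatureAtMost m k l (2 * √l + 1) := by
  obtain ⟨p, rfl⟩ := Nat.exists_eq_add_of_le' hl
  obtain ⟨s, rfl⟩ : ∃ s, m = 2 * p + 1 + s := ⟨m - (2 * p + 1), by omega⟩
  set D := Pool.Agent.Y30.TT.data p s with hD
  set r : ℝ := 1 / (2 * √((p + 1 : ℕ) : ℝ) + 1) with hr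
  have hr0 : 0 < r := by positivity
  have hr1 : r * (2 * √((p + 1 : ℕ) : ℝ) + 1) ≤ 1 := by
    rw [hr, one_div, inv_mul_cancel₀]
    positivity
  obtain ⟨ι⟩ := Pool.Agent.Y30.TT.exists_emb (N := 2 * p + 1 + s + 1) (N' := 2 * p + 1 + s + k)
    (by omega)
  obtain ⟨h1, h2⟩ := Pool.Agent.Y30.TT.raise ι (D.immersion hr0)
  refine ⟨_, _, inferInstance, inferInstance, inferInstance, inferInstance, ?_, inferInstance,
    inferInstance, inferInstance, Pool.Agent.Y30.TT.cupLength p (p + s), ι ∘ D.f r, h1,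
    fun x => ?_, ?_⟩
  · have := D.dim
    omega
  · change ‖ι (D.f r x)‖ ≤ 1
    rw [ι.norm_map]
    exact D.norm_le hr0 hr1 x
  · refine (h2.trans (D.curvature_le hr0)).trans (le_of_eq ?_)
    rw [hr, one_div_one_div]

theorem main_gen (a d m k l : ℕ) (ha : 1 ≤ a) (hd : 1 ≤ d) (hl : 1 ≤ l) (hla : l ≤ a * d)
    (hm : (a + 1) * d ≤ m + 1) (hk : 1 ≤ k) :
    CurvatureAtMost m k l ((2 ^ (a + 2) - 2) * √d + 1) := by
  obtain ⟨P⟩ := Pool.Agent.Y30.TT.exists_per a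
  set κ : ℝ := 2 ^ (a + 1) - 1 with hκdef
  have hκ : 0 < κ := by
    have : (1 : ℝ) < 2 ^ (a + 1) := one_lt_pow₀ (by norm_num) (by omega)
    rw [hκdef]
    linarith
  have had : 1 ≤ a * d := Nat.one_le_iff_ne_zero.2 (Nat.mul_ne_zero (by omega) (by omega))
  obtain ⟨p, hp⟩ : ∃ p, d * a = p + 1 := ⟨d * a - 1, by rw [mul_comm] at had; omega⟩
  have hadd : (a + 1) * d = d * a + d := by ring
  obtain ⟨s, hs⟩ : ∃ s, m + 1 = d * a + d + s := ⟨m + 1 - (d * a + d), by omega⟩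
  obtain ⟨q, hq⟩ : ∃ q, d + s = q + 1 := ⟨d + s - 1, by omega⟩
  have hmpq : m = p + 1 + q := by omega
  subst hmpq
  obtain ⟨l', rfl⟩ := Nat.exists_eq_add_of_le' hl
  let B := Pool.Agent.Y30.TT.fin_blocks P hp hq
  let e : Fin (p + 1 + q + 1) ≃ (Fin d × Fin (a + 1)) ⊕ Fin s :=
    (finCongr (by rw [hs]; ring)).trans
      ((finSumFinEquiv (m := d * (a + 1)) (n := s)).symm.trans
        (Equiv.sumCongr finProdFinEquiv.symm (Equiv.refl _)))
  set r : ℝ := 1 / (2 * κ * √d + 1) with hr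
  have hr0 : 0 < r := by positivity
  let H := B.hyp e hr0 hκ
  have hdim : Module.finrank ℝ (Pool.Agent.Y30.TT.WW p q) = p + 1 + q := by
    rw [Module.finrank_prod, finrank_euclideanSpace, finrank_euclideanSpace, Fintype.card_fin,
      Fintype.card_fin]
  obtain ⟨ι⟩ := Pool.Agent.Y30.TT.exists_emb (N := p + 1 + q + 1) (N' := p + 1 + q + k)
    (by omega)
  obtain ⟨h1, h2⟩ := Pool.Agent.Y30.TT.raise ι H.immersion
  refine ⟨_, _, inferInstance, inferInstance, inferInstance, inferInstance, hdim, inferInstance,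
    inferInstance, inferInstance, Pool.Agent.Y30.TT.cupLength' p q l' ?_, ι ∘ H.f, h1,
    fun x => ?_, ?_⟩
  · have h3 : l' + 1 ≤ p + 1 := by
      rw [← hp, mul_comm]; exact hla
    omega
  · change ‖ι (H.f x)‖ ≤ 1
    rw [ι.norm_map]
    refine (B.hyp_norm e hr0 hκ x).trans (le_of_eq ?_)
    rw [hr, one_div, inv_mul_cancel₀]
    positivity
  · refine (h2.trans (H.curvature_le (by rw [hdim]))).trans (le_of_eq ?_)
    rw [hr, one_div_one_div, hκdef]
    congr 1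
    ring

theorem asym (c δ : ℝ) (hc : 0 < c) (hδ : 0 < δ) :
    ∃ c' : ℝ, 0 < c' ∧ ∃ l₀ : ℕ, ∀ l m k : ℕ, l₀ ≤ l → (1 + δ) * l ≤ m → 1 ≤ k →
      (m : ℝ) * k ≤ c' * (l * √l) → InequalityFails c m k l := by
  obtain ⟨a, ha⟩ := exists_nat_gt (2 / δ)
  have ha0 : (0 : ℝ) < a := lt_trans (by positivity) ha
  have ha1 : 1 ≤ a := by exact_mod_cast ha0
  obtain ⟨L, hL⟩ := exists_nat_gt (2 * a / δ)
  refine ⟨c / 2 ^ (a + 4), by positivity, max L 1, fun l m k hl hm hk hmk => ?_⟩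
  have hl1 : 1 ≤ l := le_trans (le_max_right _ _) hl
  have hlL : (L : ℝ) ≤ l := by exact_mod_cast le_trans (le_max_left _ _) hl
  have hlr : (1 : ℝ) ≤ l := by exact_mod_cast hl1
  have h1 : l ≤ a * (l / a + 1) := (Nat.lt_mul_div_succ l (by omega)).le
  have h2 : a * (l / a) ≤ l := Nat.mul_div_le l a
  have h2r : (a : ℝ) * ((l / a : ℕ) : ℝ) ≤ l := by exact_mod_cast h2
  have h3 : ((l / a : ℕ) : ℝ) ≤ δ * l / 2 := by
    have h : 2 / δ * ((l / a : ℕ) : ℝ) ≤ l :=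
      le_trans (mul_le_mul_of_nonneg_right ha.le (Nat.cast_nonneg _)) h2r
    rw [div_mul_eq_mul_div, div_le_iff₀ hδ] at h
    linarith
  have h4 : (a : ℝ) ≤ δ * l / 2 := by
    have h := (hL.trans_le hlL).le
    rw [div_le_iff₀ hδ] at h
    linarith
  have h5 : (a + 1) * (l / a + 1) ≤ m + 1 := by
    have h : (((a + 1) * (l / a + 1) : ℕ) : ℝ) ≤ ((m + 1 : ℕ) : ℝ) := by
      rw [Nat.cast_mul, Nat.cast_add, Nat.cast_add, Nat.cast_add, Nat.cast_one]
      have e1 : ((a : ℝ) + 1) * (((l / a : ℕ) : ℝ) + 1) =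
        (a : ℝ) * ((l / a : ℕ) : ℝ) + a + ((l / a : ℕ) : ℝ) + 1 := by ring
      rw [e1]
      linarith
    exact_mod_cast h
  have h6 : (4 : ℝ) ≤ 2 ^ (a + 2) := by
    calc (4 : ℝ) = 2 ^ 2 := by norm_num
      _ ≤ 2 ^ (a + 2) := pow_le_pow_right₀ (by norm_num) (by omega)
  have hsl : (1 : ℝ) ≤ √l := Real.one_le_sqrt.2 hlr
  have hsq : √(l : ℝ) * √l = l := Real.mul_self_sqrt (by positivity)
  have h7 : √((l / a + 1 : ℕ) : ℝ) ≤ 2 * √l := by
    have h : ((l / a + 1 : ℕ) : ℝ) ≤ 4 * l := by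
      have h8 : l / a ≤ l := Nat.div_le_self l a
      have h9 : ((l / a : ℕ) : ℝ) ≤ l := by exact_mod_cast h8
      rw [Nat.cast_add, Nat.cast_one]
      linarith
    calc √((l / a + 1 : ℕ) : ℝ) ≤ √(4 * l) := Real.sqrt_le_sqrt h
      _ = 2 * √l := by
        rw [Real.sqrt_mul (by norm_num), show (4 : ℝ) = 2 ^ 2 by norm_num,
          Real.sqrt_sq (by norm_num)]
  have h8 : (2 ^ (a + 2) - 2) * √((l / a + 1 : ℕ) : ℝ) + 1 ≤ 2 ^ (a + 3) * √l := by
    have h9 : (2 ^ (a + 2) - 2) * √((l / a + 1 : ℕ) : ℝ) ≤ (2 ^ (a + 2) - 2) * (2 * √l) :=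
      mul_le_mul_of_nonneg_left h7 (by linarith)
    have h10 : (2 : ℝ) ^ (a + 3) = 2 * 2 ^ (a + 2) := by ring
    rw [h10]
    nlinarith
  have h11 : 0 ≤ (2 ^ (a + 2) - 2) * √((l / a + 1 : ℕ) : ℝ) + 1 := by
    have := mul_nonneg (by linarith : (0 : ℝ) ≤ 2 ^ (a + 2) - 2)
      (Real.sqrt_nonneg ((l / a + 1 : ℕ) : ℝ))
    linarith
  refine fails_of (main_gen a (l / a + 1) m k l ha1 (Nat.le_add_left 1 _) hl1 h1 h5 hk) h11 ?_
  refine lt_of_le_of_lt h8 ?_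
  have hm0 : (0 : ℝ) < m := lt_of_lt_of_le (by positivity) hm
  have hk0 : (0 : ℝ) < k := by exact_mod_cast hk
  rw [lt_div_iff₀ (by positivity)]
  have h12 : 2 ^ (a + 3) * √(l : ℝ) * ((m : ℝ) * k) ≤
      2 ^ (a + 3) * √(l : ℝ) * (c / 2 ^ (a + 4) * (l * √l)) :=
    mul_le_mul_of_nonneg_left hmk (by positivity)
  have h13 : 2 ^ (a + 3) * √(l : ℝ) * (c / 2 ^ (a + 4) * (l * √l)) = c / 2 * l ^ 2 := by
    have h14 : (2 : ℝ) ^ (a + 4) = 2 * 2 ^ (a + 3) := by ring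
    rw [h14]
    have h15 : (2 : ℝ) ^ (a + 3) ≠ 0 := by positivity
    field_simp
    rw [sq, hsq]
  have h16 : (0 : ℝ) < c * l ^ 2 := by positivity
  rw [h13] at h12
  linarith

theorem explicit : InequalityFails (1 / 10) 3361 1 1681 := by
  have h := main 3361 1 1681 (by norm_num) (by norm_num) le_rfl
  have h1 : √((1681 : ℕ) : ℝ) = 41 := by
    rw [show ((1681 : ℕ) : ℝ) = 41 ^ 2 by norm_num, Real.sqrt_sq (by norm_num)]
  rw [h1] at h
  exact fails_of h (by norm_num) (by norm_num)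

/-- THE CUP-LENGTH INEQUALITY `curv ≥ c l² / (m k)` FAILS IN EVERY CODIMENSION `k`, FOR ALL LARGE
CUP-LENGTHS `l` AND ALL DIMENSIONS `m` BETWEEN `(1 + δ) l` AND `c' l^(3/2) / k`.
(1) For all `l ≥ 1`, all `m ≥ 2 l - 1` and all `k ≥ 1` there is a closed `m`-manifold of cup-length
at least `l` with an immersion in the unit ball of `ℝ^(m + k)` of curvature at most `2 √l + 1`.
(2) For all `a, d ≥ 1`, `1 ≤ l ≤ a d`, `m ≥ (a + 1) d - 1`, `k ≥ 1` there is one of curvature at most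
`(2^(a+2) - 2) √d + 1`: so the ratio of `m` and `l` may be any number larger than `1`.
(3) For all `c, δ > 0` there are `c' > 0` and `l₀` such that the inequality with the constant `c`
fails for all `l ≥ l₀`, `m ≥ (1 + δ) l` and `k ≥ 1` with `m k ≤ c' l^(3/2)`.
(4) The inequality of the question (`c = 0.1`) fails for `(m, k, l) = (3361, 1, 1681)`. -/
theorem result :
    (∀ m k l : ℕ, 1 ≤ l → 2 * l ≤ m + 1 → 1 ≤ k → CurvatureAtMost m k l (2 * √l + 1)) ∧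
    (∀ a d m k l : ℕ, 1 ≤ a → 1 ≤ d → 1 ≤ l → l ≤ a * d → (a + 1) * d ≤ m + 1 → 1 ≤ k →
      CurvatureAtMost m k l ((2 ^ (a + 2) - 2) * √d + 1)) ∧
    (∀ c δ : ℝ, 0 < c → 0 < δ → ∃ c' : ℝ, 0 < c' ∧ ∃ l₀ : ℕ, ∀ l m k : ℕ, l₀ ≤ l →
      (1 + δ) * l ≤ m → 1 ≤ k → (m : ℝ) * k ≤ c' * (l * √l) → InequalityFails c m k l) ∧
    InequalityFails (1 / 10) 3361 1 1681 :=
  ⟨main, main_gen, asym, explicit⟩

end Pool.Agent.Results.MP_ecbb26_gt.AllDimensions
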